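import Pool.Agent.H.MP_6036e3_co.Twin

/-!
Connected graphs all of whose minimal PSD forcing sets have propagation time one are PSD fast
joins.
-/

namespace Pool.Agent.Results.MP_6036e3_co.FastJoin

open Pool.Agent.H.MP_6036e3_co

universe u

variable {V : Type u}

/-- PSD colour change rule: when exactly `B` is blue, the vertex `u` may force `w`, i.e. `u` is
blue and, for some connected component `C` of `G - B`, `w` is the only neighbour of `u` in `C`. -/
def CanForce (G : SimpleGraph V) (B : Set V) (u w : V) : Prop :=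
  u ∈ B ∧ ∃ C : (G.induce Bᶜ).ConnectedComponent,
    G.neighborSet u ∩ (Subtype.val '' C.supp) = {w}

/-- The set of white vertices that some vertex can force when exactly `B` is blue. -/
def forced (G : SimpleGraph V) (B : Set V) : Set V := {w | w ∉ B ∧ ∃ u, CanForce G B u w}

/-- The set of blue vertices after `i` rounds, starting from `B`. -/
def blue (G : SimpleGraph V) (B : Set V) : ℕ → Set V
  | 0 => B
  | i + 1 => blue G B i ∪ forced G (blue G B i)

/-- The number of the last round in which some vertex is forced (`0` if there is none). -/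
noncomputable def pt (G : SimpleGraph V) (B : Set V) : ℕ :=
  sSup {p | ∃ i, p = i + 1 ∧ (forced G (blue G B i)).Nonempty}

/-- PSD forcing sets. -/
def IsForcing (G : SimpleGraph V) (B : Set V) : Prop := blue G B (pt G B) = Set.univ

/-- The upper PSD propagation time: the maximum of `pt G B` over all (inclusion-)minimal PSD
forcing sets `B`. -/
noncomputable def upperPt (G : SimpleGraph V) : ℕ :=
  sSup {k | ∃ B, Minimal (IsForcing G) B ∧ pt G B = k}

/-- The join of a family of graphs. -/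
def joinOf {t : ℕ} {W : Fin t → Type} (H : ∀ i, SimpleGraph (W i)) :
    SimpleGraph (Σ i, W i) where
  Adj x y := x.1 ≠ y.1 ∨ ∃ (i : Fin t) (a b : W i), x = ⟨i, a⟩ ∧ y = ⟨i, b⟩ ∧ (H i).Adj a b
  symm := ⟨by
    rintro x y (h | ⟨i, a, b, h1, h2, h3⟩)
    · exact Or.inl h.symm
    · exact Or.inr ⟨i, b, a, h2, h1, h3.symm⟩⟩
  loopless := ⟨by
    rintro x (h | ⟨i, a, b, h1, h2, h3⟩)
    · exact h rfl
    · rw [h1] at h2
      have : a = b := by simpa using h2
      exact h3.ne this⟩

/-- PSD fast joins: complete graphs of order at least two, and joins of `t ≥ 2` graphs each of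
which is the disjoint union of two nonempty complete graphs. -/
def IsFastJoin (G : SimpleGraph V) : Prop :=
  (∃ n, 2 ≤ n ∧ Nonempty (G ≃g (⊤ : SimpleGraph (Fin n)))) ∨
  ∃ t, 2 ≤ t ∧ ∃ n m : Fin t → ℕ, (∀ i, 1 ≤ n i) ∧ (∀ i, 1 ≤ m i) ∧
    Nonempty (G ≃g joinOf fun i =>
      (⊤ : SimpleGraph (Fin (n i))) ⊕g (⊤ : SimpleGraph (Fin (m i))))

section force

variable {G : SimpleGraph V}

lemma canForce_of_closed {S K : Set V} {u w : V} (hK : K ⊆ Sᶜ) (hw : w ∈ K)
    (hcl : ∀ a ∈ K, ∀ b, b ∉ S → b ∉ K → ¬ G.Adj a b) (hu : u ∈ S) (huw : G.Adj u w)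
    (hun : ∀ x ∈ K, G.Adj u x → x = w) : CanForce G S u w := by
  refine ⟨hu, (G.induce Sᶜ).connectedComponentMk ⟨w, hK hw⟩, ?_⟩
  ext x
  simp only [Set.mem_inter_iff, SimpleGraph.mem_neighborSet, Set.mem_image,
    SimpleGraph.ConnectedComponent.mem_supp_iff, Set.mem_singleton_iff]
  constructor
  · rintro ⟨hux, ⟨y, hy⟩, hreach, rfl⟩
    refine hun _ ?_ hux
    have hr : (G.induce Sᶜ).Reachable ⟨w, hK hw⟩ ⟨y, hy⟩ :=
      (SimpleGraph.ConnectedComponent.exact hreach).symm
    obtain ⟨p⟩ := hr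
    by_contra hyK
    obtain ⟨d, -, hd1, hd2⟩ := p.exists_boundary_dart {z | z.1 ∈ K} hw hyK
    exact hcl _ hd1 _ d.snd.2 hd2 d.adj
  · rintro rfl
    exact ⟨huw, ⟨x, hK hw⟩, rfl, rfl⟩

lemma exists_closed_of_canForce {S : Set V} {u w : V} (h : CanForce G S u w) :
    u ∈ S ∧ G.Adj u w ∧ ∃ K : Set V, K ⊆ Sᶜ ∧ w ∈ K ∧
      (∀ a ∈ K, ∀ b, b ∉ S → b ∉ K → ¬ G.Adj a b) ∧ ∀ x ∈ K, G.Adj u x → x = w := by
  obtain ⟨hu, C, hC⟩ := h
  have hw : w ∈ G.neighborSet u ∩ (Subtype.val '' C.supp) := by rw [hC]; rfl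
  refine ⟨hu, hw.1, Subtype.val '' C.supp, ?_, hw.2, ?_, ?_⟩
  · rintro x ⟨y, -, rfl⟩
    exact y.2
  · rintro a ⟨y, hy, rfl⟩ b hb hbK hadj
    apply hbK
    refine ⟨⟨b, hb⟩, ?_, rfl⟩
    rw [SimpleGraph.ConnectedComponent.mem_supp_iff] at hy ⊢
    rw [← hy]
    apply SimpleGraph.ConnectedComponent.sound
    apply SimpleGraph.Adj.reachable
    exact hadj.symm
  · intro x hx hadj
    have : x ∈ G.neighborSet u ∩ (Subtype.val '' C.supp) := ⟨hadj, hx⟩
    rw [hC] at this
    exact this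

lemma exists_force_of_El [DecidableEq V] {A : Finset V} (hA : El G A) (hne : A.Nonempty) :
    ∃ u w, w ∈ A ∧ CanForce G (A : Set V)ᶜ u w := by
  induction hA with
  | empty => exact absurd hne Finset.not_nonempty_empty
  | @force A w u hw hadj hps _ _ =>
    refine ⟨u, w, hw, canForce_of_closed (K := (A : Set V)) (by rw [compl_compl]) hw ?_ ?_ hadj ?_⟩
    · intro a _ b hb hbA
      exact absurd (not_not.1 hb) hbA
    · intro huA
      exact hps.notMem (Finset.mem_erase.2 ⟨hadj.ne, huA⟩)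
    · intro x hx hux
      by_contra hxw
      exact (hps x (Finset.mem_erase.2 ⟨hxw, hx⟩)).2 hux
  | @union A B hAB _ _ ih ih' =>
    have key : ∀ A B : Finset V, (∀ a ∈ A, ∀ b ∈ B, Pp G a b) → A.Nonempty →
        (∃ u w, w ∈ A ∧ CanForce G (A : Set V)ᶜ u w) →
        ∃ u w, w ∈ A ∧ CanForce G ((A ∪ B : Finset V) : Set V)ᶜ u w := by
      rintro A B hAB - ⟨u, w, hw, hf⟩
      obtain ⟨hu, hadj, K, hK, hwK, hcl, hun⟩ := exists_closed_of_canForce hf
      rw [compl_compl] at hK
      refine ⟨u, w, hw, canForce_of_closed (K := K) ?_ hwK ?_ ?_ hadj hun⟩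
      · intro x hx
        rw [compl_compl, Finset.coe_union]
        exact Or.inl (hK hx)
      · intro a ha b hb hbK hab
        rw [Set.mem_compl_iff, not_not, Finset.coe_union] at hb
        rcases hb with hb | hb
        · exact hcl a ha b (fun h' => h' hb) hbK hab
        · exact (hAB a (hK ha) b hb).2 hab
      · intro h'
        rw [Finset.coe_union] at h'
        rcases h' with h' | h'
        · exact hu h'
        · exact (hAB w hw u h').2 hadj.symm
    by_cases hAne : A.Nonempty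
    · obtain ⟨u, w, hw, hf⟩ := key A B hAB hAne (ih hAne)
      exact ⟨u, w, Finset.mem_union_left _ hw, hf⟩
    · have hA : A = ∅ := Finset.not_nonempty_iff_eq_empty.1 hAne
      have hBne : B.Nonempty := by
        rwa [hA, Finset.empty_union] at hne
      obtain ⟨u, w, hw, hf⟩ := ih' hBne
      refine ⟨u, w, Finset.mem_union_right _ hw, ?_⟩
      rw [hA, Finset.empty_union]
      exact hf

lemma blue_mono (G : SimpleGraph V) (B : Set V) : Monotone (blue G B) :=
  monotone_nat_of_le_succ fun _ => Set.subset_union_left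

lemma subset_blue (G : SimpleGraph V) (B : Set V) (i : ℕ) : B ⊆ blue G B i :=
  blue_mono G B (Nat.zero_le i)

lemma bdd [Finite V] (G : SimpleGraph V) (B : Set V) :
    BddAbove {p | ∃ i, p = i + 1 ∧ (forced G (blue G B i)).Nonempty} := by
  obtain ⟨N, hN⟩ := WellFoundedGT.monotone_chain_condition
    (⟨blue G B, blue_mono G B⟩ : ℕ →o Set V)
  refine ⟨N, ?_⟩
  rintro p ⟨i, rfl, w, hw⟩
  by_contra hcon
  have hi : N ≤ i := by omega
  have h1 : blue G B N = blue G B i := hN i hi
  have h2 : blue G B N = blue G B (i + 1) := hN (i + 1) (by omega)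
  have h3 : w ∈ blue G B (i + 1) := Or.inr hw
  rw [← h2, h1] at h3
  exact hw.1 h3

lemma isForcing_of [Finite V] {B : Set V}
    (h : ∀ T, B ⊆ T → T ≠ Set.univ → ∃ u w, w ∉ T ∧ CanForce G T u w) : IsForcing G B := by
  by_contra hcon
  obtain ⟨u, w, hw, hf⟩ := h _ (subset_blue G B (pt G B)) hcon
  have : pt G B + 1 ≤ pt G B := le_csSup (bdd G B) ⟨pt G B, rfl, w, hw, u, hf⟩
  omega

lemma isForcing_compl [Fintype V] [DecidableEq V] {W : Finset V} (hW : El G W) :
    IsForcing G (W : Set V)ᶜ := by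
  classical
  apply isForcing_of
  intro T hT hne
  have hT' : (Finset.univ.filter fun x => x ∉ T) ⊆ W := by
    intro x hx
    by_contra hxW
    exact (Finset.mem_filter.1 hx).2 (hT hxW)
  obtain ⟨u, w, hw, hf⟩ := exists_force_of_El (hW.mono hT') (by
    obtain ⟨x, hx⟩ := (Set.ne_univ_iff_exists_notMem T).1 hne
    exact ⟨x, Finset.mem_filter.2 ⟨Finset.mem_univ x, hx⟩⟩)
  have hc : ((Finset.univ.filter fun x => x ∉ T : Finset V) : Set V)ᶜ = T := by
    ext x
    simp
  rw [hc] at hf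
  exact ⟨u, w, (Finset.mem_filter.1 hw).2, hf⟩

lemma pt_le [Finite V] (h : upperPt G = 1) {B : Set V} (hB : Minimal (IsForcing G) B) :
    pt G B ≤ 1 := by
  rw [← h]
  refine le_csSup ?_ ⟨B, hB, rfl⟩
  apply Set.Finite.bddAbove
  apply ((Set.toFinite (Set.univ : Set (Set V))).image (pt G)).subset
  rintro k ⟨B, -, rfl⟩
  exact ⟨B, Set.mem_univ B, rfl⟩

lemma exists_pt_one [Finite V] (h : upperPt G = 1) : ∃ B : Set V, (forced G B).Nonempty := by
  have hne : {k | ∃ B, Minimal (IsForcing G) B ∧ pt G B = k}.Nonempty := by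
    by_contra hcon
    rw [Set.not_nonempty_iff_eq_empty] at hcon
    unfold upperPt at h
    rw [hcon, csSup_empty] at h
    exact absurd h (by simp)
  have hmem := Nat.sSup_mem hne (by
    apply Set.Finite.bddAbove
    apply ((Set.toFinite (Set.univ : Set (Set V))).image (pt G)).subset
    rintro k ⟨B, -, rfl⟩
    exact ⟨B, Set.mem_univ B, rfl⟩)
  obtain ⟨B, -, hB⟩ := hmem
  have hB1 : pt G B = 1 := by
    rw [hB]
    exact h
  have hne' : {p | ∃ i, p = i + 1 ∧ (forced G (blue G B i)).Nonempty}.Nonempty := by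
    by_contra hcon
    rw [Set.not_nonempty_iff_eq_empty] at hcon
    unfold pt at hB1
    rw [hcon, csSup_empty] at hB1
    exact absurd hB1 (by simp)
  obtain ⟨i, -, hi⟩ := Nat.sSup_mem hne' (bdd G B)
  exact ⟨_, hi⟩

/-- the private-neighbour property -/
lemma private_nbr [Fintype V] [DecidableEq V] (h : upperPt G = 1) (W : Finset V) (hE : El G W)
    (hC : Cn G W) (w : V) (hw : w ∈ W) : ∃ u, G.Adj u w ∧ PS G u (W.erase w) := by
  classical
  obtain ⟨B, hBW, hB⟩ := exists_minimal_le_of_wellFoundedLT (IsForcing G) _ (isForcing_compl hE)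
  have h1 := pt_le h hB
  have h2 : blue G B 1 = Set.univ := by
    have h3 : blue G B (pt G B) = Set.univ := hB.1
    rw [Set.eq_univ_iff_forall] at h3 ⊢
    intro x
    exact blue_mono G B h1 (h3 x)
  have hWB : ∀ x ∈ W, x ∉ B := fun x hx hxB => hBW hxB hx
  have hw1 : w ∈ blue G B 1 := by
    rw [h2]
    exact Set.mem_univ w
  rcases hw1 with hw1 | ⟨-, u, hf⟩
  · exact absurd hw1 (hWB w hw)
  obtain ⟨hu, hadj, K, hK, hwK, hcl, hun⟩ := exists_closed_of_canForce hf
  have hWK : ∀ x ∈ W, x ∈ K := by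
    by_contra hcon
    push Not at hcon
    obtain ⟨x, hx, hxK⟩ := hcon
    obtain ⟨a, ha, b, hb, hbS, hab⟩ := hC.2 (W.filter fun x => x ∈ K) (Finset.filter_subset _ _)
      ⟨w, Finset.mem_filter.2 ⟨hw, hwK⟩⟩ (by
        intro heq
        rw [← heq] at hx
        exact hxK (Finset.mem_filter.1 hx).2)
    exact hcl a (Finset.mem_filter.1 ha).2 b (hWB b hb)
      (fun h' => hbS (Finset.mem_filter.2 ⟨hb, h'⟩)) hab
  refine ⟨u, hadj, ?_⟩
  intro x hx
  obtain ⟨hxw, hxW⟩ := Finset.mem_erase.1 hx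
  refine ⟨?_, fun h' => hxw (hun x (hWK x hxW) h')⟩
  rintro rfl
  exact hWB u hxW hu

lemma Cn_univ [Fintype V] [DecidableEq V] (hG : G.Connected) : Cn G (Finset.univ : Finset V) := by
  obtain ⟨x⟩ := hG.nonempty
  refine ⟨⟨x, Finset.mem_univ x⟩, ?_⟩
  rintro S - ⟨s, hs⟩ hne
  have : ∃ t, t ∉ S := by
    by_contra hcon
    push Not at hcon
    exact hne (Finset.eq_univ_iff_forall.2 hcon)
  obtain ⟨t, ht⟩ := this
  obtain ⟨p⟩ := hG.preconnected s t
  obtain ⟨d, -, hd1, hd2⟩ := p.exists_boundary_dart (S : Set V) hs ht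
  exact ⟨_, hd1, _, Finset.mem_univ _, hd2, d.adj⟩

lemma joinOf_adj_same {t : ℕ} {W : Fin t → Type} (H : ∀ i, SimpleGraph (W i)) (i : Fin t)
    (a b : W i) : (joinOf H).Adj ⟨i, a⟩ ⟨i, b⟩ ↔ (H i).Adj a b := by
  constructor
  · rintro (h | ⟨j, a', b', h1, h2, h3⟩)
    · exact absurd rfl h
    · obtain ⟨rfl, h1⟩ := Sigma.mk.inj_iff.1 h1
      rw [eq_of_heq h1]
      have h4 : b = b' := by simpa using h2
      rw [h4]
      exact h3
  · intro h
    exact Or.inr ⟨i, a, b, rfl, rfl, h⟩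

lemma fastJoin_of_colouring [Fintype V] {t : ℕ} (c : V → Fin t × Bool)
    (hc : Function.Surjective c)
    (hadj : ∀ v w, G.Adj v w ↔ v ≠ w ∧ ¬ ((c v).1 = (c w).1 ∧ (c v).2 ≠ (c w).2)) :
    ∃ n m : Fin t → ℕ, (∀ i, 1 ≤ n i) ∧ (∀ i, 1 ≤ m i) ∧
    Nonempty (G ≃g joinOf fun i =>
      (⊤ : SimpleGraph (Fin (n i))) ⊕g (⊤ : SimpleGraph (Fin (m i)))) := by
  classical
  let n : Fin t → ℕ := fun i => Fintype.card {v // c v = (i, true)}
  let m : Fin t → ℕ := fun i => Fintype.card {v // c v = (i, false)}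
  refine ⟨n, m, ?_, ?_, ?_⟩
  · intro i
    obtain ⟨v, hv⟩ := hc (i, true)
    exact Fintype.card_pos_iff.2 ⟨⟨v, hv⟩⟩
  · intro i
    obtain ⟨v, hv⟩ := hc (i, false)
    exact Fintype.card_pos_iff.2 ⟨⟨v, hv⟩⟩
  let f : (Σ i, Fin (n i) ⊕ Fin (m i)) → V := fun x =>
    Sum.elim (fun a => (((Fintype.equivFin {v // c v = (x.1, true)}).symm a : _) : V))
      (fun b => (((Fintype.equivFin {v // c v = (x.1, false)}).symm b : _) : V)) x.2
  have hfl : ∀ i a, c (f ⟨i, Sum.inl a⟩) = (i, true) := fun i a =>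
    ((Fintype.equivFin {v // c v = (i, true)}).symm a).2
  have hfr : ∀ i b, c (f ⟨i, Sum.inr b⟩) = (i, false) := fun i b =>
    ((Fintype.equivFin {v // c v = (i, false)}).symm b).2
  have hinj : Function.Injective f := by
    rintro ⟨i, x⟩ ⟨j, y⟩ hxy
    have hcxy := congrArg c hxy
    rcases x with a | a <;> rcases y with b | b
    · rw [hfl, hfl] at hcxy
      obtain rfl : i = j := by simpa using hcxy
      have h1 : a = b := by
        apply (Fintype.equivFin {v // c v = (i, true)}).symm.injective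
        exact Subtype.ext hxy
      rw [h1]
    · rw [hfl, hfr] at hcxy
      simp at hcxy
    · rw [hfr, hfl] at hcxy
      simp at hcxy
    · rw [hfr, hfr] at hcxy
      obtain rfl : i = j := by simpa using hcxy
      have h1 : a = b := by
        apply (Fintype.equivFin {v // c v = (i, false)}).symm.injective
        exact Subtype.ext hxy
      rw [h1]
  have hsurj : Function.Surjective f := by
    intro v
    rcases hcv : c v with ⟨i, b⟩
    cases b with
    | true =>
      refine ⟨⟨i, Sum.inl (Fintype.equivFin {v // c v = (i, true)} ⟨v, hcv⟩)⟩, ?_⟩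
      simp [f]
    | false =>
      refine ⟨⟨i, Sum.inr (Fintype.equivFin {v // c v = (i, false)} ⟨v, hcv⟩)⟩, ?_⟩
      simp [f]
  refine ⟨(SimpleGraph.Iso.symm ⟨Equiv.ofBijective f ⟨hinj, hsurj⟩, ?_⟩)⟩
  rintro ⟨i, x⟩ ⟨j, y⟩
  rw [Equiv.ofBijective_apply, Equiv.ofBijective_apply, hadj, hinj.ne_iff]
  have hfst : ∀ z : (Σ i, Fin (n i) ⊕ Fin (m i)), (c (f z)).1 = z.1 := by
    rintro ⟨k, z | z⟩
    · rw [hfl]
    · rw [hfr]
  by_cases hij : i = j
  · subst hij
    rw [joinOf_adj_same, hfst, hfst]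
    rcases x with a | a <;> rcases y with b | b
    · rw [hfl, hfl]
      simp
    · rw [hfl, hfr]
      simp
    · rw [hfr, hfl]
      simp
    · rw [hfr, hfr]
      simp
  · rw [hfst, hfst]
    constructor
    · intro _
      exact Or.inl hij
    · intro _
      refine ⟨?_, fun h' => hij h'.1⟩
      intro h'
      exact hij (congrArg Sigma.fst h')

end force

/-- **Main theorem.** A connected finite graph whose upper PSD propagation time equals one is a PSD
fast join. -/
theorem result {V : Type u} [Finite V] (G : SimpleGraph V) (hG : G.Connected)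
    (h : upperPt G = 1) : IsFastJoin G := by
  classical
  have := Fintype.ofFinite V
  rcases structure_of_pr (Cn_univ hG) (private_nbr h) with rfl | ⟨t, ht, c, hc, hadj⟩
  · left
    refine ⟨Fintype.card V, ?_, ⟨⟨Fintype.equivFin V, ?_⟩⟩⟩
    · obtain ⟨B, w, hw, u, hu, -⟩ := exists_pt_one h
      have hne : u ≠ w := by
        rintro rfl
        exact hw hu
      exact Fintype.one_lt_card_iff.2 ⟨u, w, hne⟩
    · intro a b
      simp
  · right
    exact ⟨t, ht, fastJoin_of_colouring c hc hadj⟩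

end Pool.Agent.Results.MP_6036e3_co.FastJoin
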